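import Mathlib
import Pool.Agent.H43.NCPoset

/-!
# Noncrossing partition lattices of hull configurations without blank sides

Let `P` be a finite set of points of the plane, not contained in a line, all of whose points lie
on the boundary of the convex polygon `Conv(P)`, and such that no side of `Conv(P)` is blank.
We prove that the poset `NC(P)` of noncrossing partitions of `P`, ordered by refinement, is not
rank-symmetric.
-/

namespace Pool.Agent.Results.MP_f3bbeb_co.NotRankSymmetric

/-- A set partition `π` of the finite planar point set `P` is noncrossing if the convex hulls of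
any two distinct blocks are disjoint (do not overlap). -/
def IsNoncrossing (P : Finset (EuclideanSpace ℝ (Fin 2))) (π : Finpartition P) : Prop :=
  ∀ A ∈ π.parts, ∀ B ∈ π.parts, A ≠ B →
    Disjoint (convexHull ℝ (A : Set (EuclideanSpace ℝ (Fin 2))))
      (convexHull ℝ (B : Set (EuclideanSpace ℝ (Fin 2))))

/-- `NC(P)`: the noncrossing partitions of `P`. The order is the one of `Finpartition`, that is,
refinement, finer partitions being smaller. -/
abbrev NC (P : Finset (EuclideanSpace ℝ (Fin 2))) : Type :=
  {π : Finpartition P // IsNoncrossing P π}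

/-- All points of `P` lie on the boundary of the convex polygon `Conv(P)`. -/
def IsHullConfiguration (P : Finset (EuclideanSpace ℝ (Fin 2))) : Prop :=
  (P : Set (EuclideanSpace ℝ (Fin 2))) ⊆
    frontier (convexHull ℝ (P : Set (EuclideanSpace ℝ (Fin 2))))

/-- The segment from `a` to `b` is a side of the convex polygon `Conv(P)`: it is a nondegenerate
segment, and an exposed face of `Conv(P)` (the intersection with a supporting line). -/
def IsSide (P : Finset (EuclideanSpace ℝ (Fin 2))) (a b : EuclideanSpace ℝ (Fin 2)) : Prop :=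
  a ≠ b ∧ IsExposed ℝ (convexHull ℝ (P : Set (EuclideanSpace ℝ (Fin 2)))) (segment ℝ a b)

/-- The side from `a` to `b` is blank: the only points of `P` on it are its two endpoints. -/
def IsBlankSide (P : Finset (EuclideanSpace ℝ (Fin 2))) (a b : EuclideanSpace ℝ (Fin 2)) : Prop :=
  IsSide P a b ∧ ∀ x ∈ P, x ∈ segment ℝ a b → x = a ∨ x = b

/-- A poset is graded of rank `N` if every maximal chain has `N + 1` elements. -/
def IsGradedOfRank (α : Type*) [PartialOrder α] (N : ℕ) : Prop :=
  ∀ c : Set α, IsMaxChain (· ≤ ·) c → c.encard = N + 1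

/-- The number `r_i` of elements of rank `i` (the rank of an element of a graded poset is its
height: the length of the longest chain ending at the element). -/
noncomputable def rankNumber (α : Type*) [PartialOrder α] (i : ℕ) : ℕ :=
  Nat.card {x : α // Order.height x = i}

/-- A poset is rank-symmetric if it is graded, of rank `N` say, and `r_i = r_{N - i}` for all
`0 ≤ i ≤ N`. -/
def IsRankSymmetric (α : Type*) [PartialOrder α] : Prop :=
  ∃ N : ℕ, IsGradedOfRank α N ∧ ∀ i ≤ N, rankNumber α i = rankNumber α (N - i)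

open Pool.Agent.H43 Finset Function

/-! ### Partitions of `P` and equivalence relations on indices -/

section Transfer

variable {n : ℕ} {p : Fin n → Pl} {P : Finset Pl}

/-- the equivalence relation on indices given by a partition -/
def toRel (hP : Set.range p = (P : Set Pl)) (π : Finpartition P) : Setoid (Fin n) where
  r i j := ∃ A ∈ π.parts, p i ∈ A ∧ p j ∈ A
  iseqv :=
    { refl := fun i => by
        have hi : p i ∈ P := by
          have : p i ∈ (P : Set Pl) := by rw [← hP]; exact ⟨i, rfl⟩
          exact this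
        obtain ⟨A, hA, hiA⟩ := π.exists_mem hi
        exact ⟨A, hA, hiA, hiA⟩
      symm := fun {i j} ⟨A, hA, h1, h2⟩ => ⟨A, hA, h2, h1⟩
      trans := fun {i j k} ⟨A, hA, h1, h2⟩ ⟨B, hB, h3, h4⟩ => by
        have : A = B := π.eq_of_mem_parts hA hB h2 h3
        subst this
        exact ⟨A, hA, h1, h4⟩ }

theorem toRel_rel (hP : Set.range p = (P : Set Pl)) (π : Finpartition P) (i j : Fin n) :
    toRel hP π i j ↔ ∃ A ∈ π.parts, p i ∈ A ∧ p j ∈ A := Iff.rfl

/-- the part of an index is the image of its class -/
theorem image_class (hP : Set.range p = (P : Set Pl)) (π : Finpartition P) {A : Finset Pl}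
    (hA : A ∈ π.parts) {i : Fin n} (hi : p i ∈ A) :
    p '' {x | toRel hP π i x} = (A : Set Pl) := by
  ext y
  constructor
  · rintro ⟨x, ⟨B, hB, h1, h2⟩, rfl⟩
    have : A = B := π.eq_of_mem_parts hA hB hi h1
    subst this
    exact h2
  · intro hy
    have hyP : y ∈ P := π.le hA hy
    have : y ∈ Set.range p := by rw [hP]; exact hyP
    obtain ⟨x, rfl⟩ := this
    exact ⟨x, ⟨A, hA, hi, hy⟩, rfl⟩

/-- the partition given by an equivalence relation on indices -/
noncomputable def ofRel (hp : Injective p) (hP : Set.range p = (P : Set Pl))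
    (r : Setoid (Fin n)) : Finpartition P := by
  classical
  exact
  { parts := univ.image fun i : Fin n => (univ.filter fun j => r i j).image p
    supIndep := by
      rw [Finset.supIndep_iff_pairwiseDisjoint]
      intro A hA B hB hAB
      rw [Finset.mem_coe, Finset.mem_image] at hA hB
      obtain ⟨i, _, rfl⟩ := hA
      obtain ⟨j, _, rfl⟩ := hB
      show Disjoint ((univ.filter fun k => r i k).image p) ((univ.filter fun k => r j k).image p)
      rw [Finset.disjoint_left]
      intro y hy1 hy2
      rw [Finset.mem_image] at hy1 hy2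
      obtain ⟨a, ha, rfl⟩ := hy1
      obtain ⟨b, hb, hab⟩ := hy2
      have hab' : b = a := hp hab
      subst hab'
      rw [Finset.mem_filter] at ha hb
      apply hAB
      have hij : r i j := r.trans ha.2 (r.symm hb.2)
      have : (univ.filter fun k => r i k) = univ.filter fun k => r j k := by
        ext k
        rw [Finset.mem_filter, Finset.mem_filter]
        exact ⟨fun h => ⟨mem_univ _, r.trans (r.symm hij) h.2⟩,
          fun h => ⟨mem_univ _, r.trans hij h.2⟩⟩
      rw [this]
    sup_parts := by
      ext y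
      rw [Finset.mem_sup]
      constructor
      · rintro ⟨A, hA, hy⟩
        rw [Finset.mem_image] at hA
        obtain ⟨i, _, rfl⟩ := hA
        have hy' : y ∈ (univ.filter fun j => r i j).image p := hy
        rw [Finset.mem_image] at hy'
        obtain ⟨a, _, rfl⟩ := hy'
        have : p a ∈ (P : Set Pl) := by rw [← hP]; exact ⟨a, rfl⟩
        exact this
      · intro hy
        have : y ∈ Set.range p := by rw [hP]; exact hy
        obtain ⟨i, rfl⟩ := this
        refine ⟨(univ.filter fun j => r i j).image p, Finset.mem_image_of_mem _ (mem_univ i), ?_⟩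
        show p i ∈ (univ.filter fun j => r i j).image p
        exact Finset.mem_image_of_mem _ (by rw [Finset.mem_filter]; exact ⟨mem_univ _, r.refl i⟩)
    bot_notMem := by
      intro h
      rw [Finset.mem_image] at h
      obtain ⟨i, _, hi⟩ := h
      have : p i ∈ (univ.filter fun j => r i j).image p :=
        Finset.mem_image_of_mem _ (by rw [Finset.mem_filter]; exact ⟨mem_univ _, r.refl i⟩)
      rw [hi] at this
      simp at this }

theorem mem_ofRel (hp : Injective p) (hP : Set.range p = (P : Set Pl)) (r : Setoid (Fin n))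
    (A : Finset Pl) : A ∈ (ofRel hp hP r).parts ↔
      ∃ i : Fin n, ∀ y, y ∈ A ↔ ∃ j, r i j ∧ p j = y := by
  classical
  unfold ofRel
  simp only [Finset.mem_image, Finset.mem_univ, true_and]
  constructor
  · rintro ⟨i, rfl⟩
    refine ⟨i, fun y => ?_⟩
    rw [Finset.mem_image]
    simp
  · rintro ⟨i, hi⟩
    refine ⟨i, ?_⟩
    ext y
    rw [hi, Finset.mem_image]
    simp

theorem toRel_ofRel (hp : Injective p) (hP : Set.range p = (P : Set Pl)) (r : Setoid (Fin n)) :
    toRel hP (ofRel hp hP r) = r := by
  ext i j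
  rw [toRel_rel]
  constructor
  · rintro ⟨A, hA, h1, h2⟩
    rw [mem_ofRel] at hA
    obtain ⟨k, hk⟩ := hA
    rw [hk] at h1 h2
    obtain ⟨a, ha, ha'⟩ := h1
    obtain ⟨b, hb, hb'⟩ := h2
    rw [hp ha'] at ha
    rw [hp hb'] at hb
    exact r.trans (r.symm ha) hb
  · intro h
    classical
    refine ⟨(univ.filter fun k => r i k).image p, ?_, ?_, ?_⟩
    · rw [mem_ofRel]
      exact ⟨i, fun y => by rw [Finset.mem_image]; simp⟩
    · exact Finset.mem_image_of_mem _ (by rw [Finset.mem_filter]; exact ⟨mem_univ _, r.refl i⟩)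
    · exact Finset.mem_image_of_mem _ (by rw [Finset.mem_filter]; exact ⟨mem_univ _, h⟩)

theorem toRel_le_iff (hP : Set.range p = (P : Set Pl)) (π ρ : Finpartition P) :
    toRel hP π ≤ toRel hP ρ ↔ π ≤ ρ := by
  constructor
  · intro h A hA
    obtain ⟨y, hy⟩ := π.nonempty_of_mem_parts hA
    have hyP : y ∈ P := π.le hA hy
    have : y ∈ Set.range p := by rw [hP]; exact hyP
    obtain ⟨i, rfl⟩ := this
    obtain ⟨B, hB, hiB⟩ := ρ.exists_mem hyP
    refine ⟨B, hB, ?_⟩
    intro z hz
    have hzP : z ∈ P := π.le hA hz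
    have : z ∈ Set.range p := by rw [hP]; exact hzP
    obtain ⟨j, rfl⟩ := this
    have hij : toRel hP π i j := ⟨A, hA, hy, hz⟩
    obtain ⟨C, hC, h1, h2⟩ := h hij
    rw [ρ.eq_of_mem_parts hB hC hiB h1]
    exact h2
  · intro h i j hij
    obtain ⟨A, hA, h1, h2⟩ := hij
    obtain ⟨B, hB, hAB⟩ := h hA
    exact ⟨B, hB, hAB h1, hAB h2⟩

theorem isNoncrossing_iff (hP : Set.range p = (P : Set Pl)) (π : Finpartition P) :
    IsNoncrossing P π ↔ GNC p (toRel hP π) := by
  constructor
  · intro h i j hij
    have hi : p i ∈ P := by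
      have : p i ∈ (P : Set Pl) := by rw [← hP]; exact ⟨i, rfl⟩
      exact this
    have hj : p j ∈ P := by
      have : p j ∈ (P : Set Pl) := by rw [← hP]; exact ⟨j, rfl⟩
      exact this
    obtain ⟨A, hA, hiA⟩ := π.exists_mem hi
    obtain ⟨B, hB, hjB⟩ := π.exists_mem hj
    rw [image_class hP π hA hiA, image_class hP π hB hjB]
    apply h A hA B hB
    intro hAB
    subst hAB
    exact hij ⟨A, hA, hiA, hjB⟩
  · intro h A hA B hB hAB
    obtain ⟨y, hy⟩ := π.nonempty_of_mem_parts hA
    obtain ⟨z, hz⟩ := π.nonempty_of_mem_parts hB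
    have h1 : y ∈ Set.range p := by rw [hP]; exact π.le hA hy
    have h2 : z ∈ Set.range p := by rw [hP]; exact π.le hB hz
    obtain ⟨i, rfl⟩ := h1
    obtain ⟨j, rfl⟩ := h2
    rw [← image_class hP π hA hy, ← image_class hP π hB hz]
    apply h
    rintro ⟨C, hC, h3, h4⟩
    apply hAB
    rw [π.eq_of_mem_parts hA hC hy h3, π.eq_of_mem_parts hB hC hz h4]

/-- `NC(P)` is isomorphic to the poset of relations on indices with disjoint hulls. -/
noncomputable def ncIso (hp : Injective p) (hP : Set.range p = (P : Set Pl)) : NC P ≃o RNC p where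
  toFun π := ⟨toRel hP π.1, (isNoncrossing_iff hP π.1).mp π.2⟩
  invFun r := ⟨ofRel hp hP r.1, by
    rw [isNoncrossing_iff hP, toRel_ofRel]
    exact r.2⟩
  left_inv π := by
    apply Subtype.ext
    have h := toRel_ofRel hp hP (toRel hP π.1)
    exact le_antisymm ((toRel_le_iff hP _ _).mp h.le) ((toRel_le_iff hP _ _).mp h.ge)
  right_inv r := Subtype.ext (toRel_ofRel hp hP r.1)
  map_rel_iff' := by
    intro π ρ
    exact toRel_le_iff hP π.1 ρ.1

end Transfer

/-! ### Rank numbers -/

section Rank

variable {n : ℕ} [NeZero n] {p : Fin n → Pl} {P : Finset Pl}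

theorem height_NC (hp : Injective p) (hP : Set.range p = (P : Set Pl)) (x : NC P) :
    Order.height x = ((n - numBlocks (ncIso hp hP x).1 : ℕ) : ℕ∞) := by
  rw [← Order.height_orderIso (ncIso hp hP) x]
  exact height_RNC_eq hp _

theorem rankNumber_NC (hp : Injective p) (hP : Set.range p = (P : Set Pl)) {j : ℕ}
    (hjn : j ≤ n) : rankNumber (NC P) (n - j) =
      Nat.card {r : Setoid (Fin n) // GNC p r ∧ numBlocks r = j} := by
  unfold rankNumber
  refine Nat.card_congr
    { toFun := fun x => ⟨(ncIso hp hP x.1).1, (ncIso hp hP x.1).2, ?_⟩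
      invFun := fun r => ⟨(ncIso hp hP).symm ⟨r.1, r.2.1⟩, ?_⟩
      left_inv := fun x => ?_
      right_inv := fun r => ?_ }
  · have h1 := x.2
    rw [height_NC hp hP, Nat.cast_inj] at h1
    have h2 := one_le_numBlocks (ncIso hp hP x.1).1
    have h3 := numBlocks_le (ncIso hp hP x.1).1
    omega
  · rw [height_NC hp hP, OrderIso.apply_symm_apply, r.2.2]
  · apply Subtype.ext
    simp
  · apply Subtype.ext
    simp

/-- If `NC(P)` is graded then its rank is `n - 1`. -/
theorem rank_eq (hp : Injective p) (hP : Set.range p = (P : Set Pl)) {N : ℕ}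
    (hN : IsGradedOfRank (NC P) N) : N + 1 = n := by
  classical
  have hn : 0 < n := Nat.pos_of_ne_zero (NeZero.ne n)
  -- strictly monotone rank function
  let ρ : NC P → ℕ := fun x => numBlocks (ncIso hp hP x).1
  have hρ : ∀ x y : NC P, x < y → ρ y < ρ x := by
    intro x y hxy
    apply numBlocks_lt_of_lt
    have := (ncIso hp hP).strictMono hxy
    exact this
  -- the top element
  have htop : GNC p (⊤ : Setoid (Fin n)) := by
    intro i j hij
    exact absurd trivial hij
  let t : NC P := (ncIso hp hP).symm ⟨⊤, htop⟩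
  have ht : Order.height t = ((n - 1 : ℕ) : ℕ∞) := by
    rw [height_NC hp hP, OrderIso.apply_symm_apply]
    have h1 : numBlocks (⊤ : Setoid (Fin n)) = 1 := by
      unfold numBlocks
      rw [Nat.card_eq_one_iff_unique]
      refine ⟨⟨fun a b => ?_⟩, ⟨Quotient.mk _ (cst 0)⟩⟩
      induction a using Quotient.inductionOn with
      | _ x =>
        induction b using Quotient.inductionOn with
        | _ y => exact Quotient.sound trivial
    rw [h1]
  obtain ⟨s, _, hs⟩ := Order.exists_series_of_height_eq_coe t ht
  have hchain : IsChain (· ≤ ·) (Set.range s.toFun) := by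
    rintro _ ⟨i, rfl⟩ _ ⟨j, rfl⟩ _
    rcases le_total i j with h | h
    · exact Or.inl (s.strictMono.monotone h)
    · exact Or.inr (s.strictMono.monotone h)
  obtain ⟨M, hM, hsub⟩ := hchain.exists_maxChain
  have hcard := hN M hM
  have h1 : (Set.range s.toFun).encard = n := by
    have hinj : Injective s.toFun := s.strictMono.injective
    rw [← Set.image_univ, hinj.encard_image, Set.encard_univ]
    simp only [ENat.card_eq_coe_fintype_card, Fintype.card_fin, hs]
    norm_cast
    omega
  have h2 : (n : ℕ∞) ≤ (N : ℕ∞) + 1 := by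
    rw [← h1, ← hcard]
    exact Set.encard_le_encard hsub
  have h3 : (N : ℕ∞) + 1 ≤ n := by
    rw [← hcard]
    have hinj : Set.InjOn ρ M := by
      intro x hx y hy hxy
      by_contra hne
      rcases hM.1 hx hy hne with h | h
      · have := hρ x y (lt_of_le_of_ne h hne)
        omega
      · have := hρ y x (lt_of_le_of_ne h (Ne.symm hne))
        omega
    rw [← hinj.encard_image]
    have hsub2 : ρ '' M ⊆ ((Finset.Icc 1 n : Finset ℕ) : Set ℕ) := by
      rintro _ ⟨x, _, rfl⟩
      rw [Finset.mem_coe, Finset.mem_Icc]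
      exact ⟨one_le_numBlocks _, numBlocks_le _⟩
    refine (Set.encard_le_encard hsub2).trans ?_
    rw [Set.encard_coe_eq_coe_finsetCard]
    simp
  have h4 : (n : ℕ∞) = ((N + 1 : ℕ) : ℕ∞) := by
    push_cast
    exact le_antisymm h2 h3
  exact_mod_cast h4.symm

end Rank

/-- For a non-collinear hull configuration without blank side there is a rank at which the rank
numbers of `NC(P)` are not symmetric; this does not presuppose that `NC(P)` is graded. -/
theorem exists_rankNumber_ne (P : Finset (EuclideanSpace ℝ (Fin 2)))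
    (hcol : ¬ Collinear ℝ (P : Set (EuclideanSpace ℝ (Fin 2))))
    (hhull : IsHullConfiguration P) (hblank : ∀ a b, ¬ IsBlankSide P a b) :
    ∃ i ≤ P.card - 1, rankNumber (NC P) i ≠ rankNumber (NC P) (P.card - 1 - i) := by
  classical
  have hPcard : 2 < P.card := by
    by_contra hcon
    push Not at hcon
    apply hcol
    rcases Nat.lt_or_ge P.card 2 with h | h
    · rcases Nat.lt_or_ge P.card 1 with h' | h'
      · have : P = ∅ := Finset.card_eq_zero.mp (by omega)
        rw [this]
        simp [collinear_empty]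
      · obtain ⟨a, ha⟩ := Finset.card_eq_one.mp (show P.card = 1 by omega)
        rw [ha]
        simp [collinear_singleton]
    · obtain ⟨a, b, _, hab⟩ := Finset.card_eq_two.mp (show P.card = 2 by omega)
      rw [hab]
      have : ((({a, b} : Finset Pl)) : Set Pl) = {a, b} := by simp
      rw [this]
      exact collinear_pair ℝ a b
  have hNZ : NeZero P.card := ⟨by omega⟩
  obtain ⟨p, hc, hP⟩ := exists_cycEnum (n := P.card) P rfl hcol hhull
  have hb : ∀ a b, IsSideOf P a b → ∃ x ∈ P, x ∈ segment ℝ a b ∧ x ≠ a ∧ x ≠ b := by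
    intro a b hab
    by_contra hcon
    push Not at hcon
    refine hblank a b ⟨hab, fun x hx hxs => ?_⟩
    by_cases hxa : x = a
    · exact Or.inl hxa
    · exact Or.inr (hcon x hx hxs hxa)
  obtain ⟨m, v, hm, hv, hvert⟩ := hc.exists_sides hPcard hP hb
  have hnm : 2 * m ≤ P.card := by
    have h3 := hv.mono (Nat.zero_le m) le_rfl
    rw [hv.last, hv.zero] at h3
    omega
  have hmain := comb_main hv hm
  have hiff : ∀ r : Setoid (Fin P.card), GNC p r ↔
      NonCr r ∧ ∀ i, i < m → ¬ BadSide r (v i) (v (i + 1)) := by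
    intro r
    rw [GNC_iff hc, SClosed_iff hc hv.zero hv.last
      (fun i hi => by have := hv.gap i hi; omega) hvert]
  have hcount : ∀ j : ℕ, Nat.card {r : Setoid (Fin P.card) // GNC p r ∧ numBlocks r = j} =
      Nat.card {r : Setoid (Fin P.card) // NonCr r ∧
        (∀ i, i < m → ¬ BadSide r (v i) (v (i + 1))) ∧ numBlocks r = j} := by
    intro j
    apply Nat.card_congr
    apply Equiv.subtypeEquivRight
    intro r
    rw [hiff r, and_assoc]
  refine ⟨P.card - m, by omega, ?_⟩
  rw [show P.card - 1 - (P.card - m) = P.card - (P.card + 1 - m) by omega,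
    rankNumber_NC hc.inj hP (by omega), rankNumber_NC hc.inj hP (by omega),
    hcount, hcount]
  intro heq
  rw [heq, sub_self] at hmain
  have : ((-1 : ℤ)) ^ (m + 1) ≠ 0 := pow_ne_zero _ (by norm_num)
  exact this hmain.symm

/-- **Theorem.** If `P` is a hull configuration, not contained in a line, such that no side of
`Conv(P)` is blank, then `NC(P)` is not rank-symmetric. -/
theorem result (P : Finset (EuclideanSpace ℝ (Fin 2)))
    (hcol : ¬ Collinear ℝ (P : Set (EuclideanSpace ℝ (Fin 2))))
    (hhull : IsHullConfiguration P) (hblank : ∀ a b, ¬ IsBlankSide P a b) :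
    ¬ IsRankSymmetric (NC P) := by
  classical
  rintro ⟨N, hN, hsym⟩
  have hPcard : 0 < P.card := by
    rw [Finset.card_pos]
    by_contra hcon
    rw [Finset.not_nonempty_iff_eq_empty] at hcon
    apply hcol
    rw [hcon]
    simp [collinear_empty]
  have hNZ : NeZero P.card := ⟨by omega⟩
  obtain ⟨p, hc, hP⟩ := exists_cycEnum (n := P.card) P rfl hcol hhull
  have hNn := rank_eq hc.inj hP hN
  obtain ⟨i, hi, hne⟩ := exists_rankNumber_ne P hcol hhull hblank
  have hN' : N = P.card - 1 := by omega
  apply hne
  rw [← hN']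
  exact hsym i (by omega)

end Pool.Agent.Results.MP_f3bbeb_co.NotRankSymmetric
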